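import Mathlib

-- merged part: Pool.Agent.Work.MP_ccba48_gt.Key
section
/-!
Key combinatorial lemma for the vertex index of the Euclidean ball.

For a nondegenerate bounded polyhedron `Q = {x | ∀ i, p i ⬝ᵥ x ≤ 1}` we average over all
feasible bases `σ` with weight `|det σ|`; cancellation along edges of `Q` gives
`E x = 0` and `E [x sᵀ] = 1`, where `s` is the sum of the rows of the basis.
-/

set_option autoImplicit false

namespace Pool.Agent.Work.MP_ccba48_gt

open Matrix Finset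

variable {n : ℕ} {ι : Type*}

/-- the matrix whose rows are the chosen vectors -/
def mat (p : ι → Fin n → ℝ) (σ : Fin n → ι) : Matrix (Fin n) (Fin n) ℝ :=
  Matrix.of fun k => p (σ k)

/-- the `k`-th column of the adjugate -/
def cof (p : ι → Fin n → ℝ) (σ : Fin n → ι) (k : Fin n) : Fin n → ℝ :=
  fun a => adjugate (mat p σ) a k

/-- the basic solution -/
noncomputable def vx (p : ι → Fin n → ℝ) (σ : Fin n → ι) : Fin n → ℝ :=
  (mat p σ).det⁻¹ • ∑ k, cof p σ k

/-- feasibility -/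
def Feas (p : ι → Fin n → ℝ) (x : Fin n → ℝ) : Prop := ∀ i, p i ⬝ᵥ x ≤ 1

/-- feasible bases -/
def Good (p : ι → Fin n → ℝ) (σ : Fin n → ι) : Prop :=
  (mat p σ).det ≠ 0 ∧ Feas p (vx p σ)

/-- boundedness of the polyhedron -/
def Bdd (p : ι → Fin n → ℝ) : Prop := ∀ d : Fin n → ℝ, d ≠ 0 → ∃ i, 0 < p i ⬝ᵥ d

/-- nondegeneracy -/
def ND (p : ι → Fin n → ℝ) : Prop :=
  ∀ σ : Fin n → ι, (mat p σ).det ≠ 0 → ∀ (j : ι) (x : Fin n → ℝ), (∀ k, σ k ≠ j) →
    (∀ k, p (σ k) ⬝ᵥ x = 1) → p j ⬝ᵥ x ≠ 1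

variable (p : ι → Fin n → ℝ)

lemma dot_cof (σ : Fin n → ι) (k l : Fin n) :
    p (σ l) ⬝ᵥ cof p σ k = if l = k then (mat p σ).det else 0 := by
  have h := congrFun (congrFun (mul_adjugate (mat p σ)) l) k
  rw [Matrix.mul_apply] at h
  simp only [Matrix.smul_apply, one_apply, smul_eq_mul, mul_ite, mul_one, mul_zero] at h
  rw [← h]
  rfl

lemma mat_update (σ : Fin n → ι) (k : Fin n) (j : ι) :
    mat p (Function.update σ k j) = (mat p σ).updateRow k (p j) := by
  ext a b
  by_cases h : a = k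
  · subst h; simp [mat]
  · simp [mat, h]

lemma cof_update (σ : Fin n → ι) (k : Fin n) (j : ι) :
    cof p (Function.update σ k j) k = cof p σ k := by
  funext a
  simp only [cof, adjugate_apply, mat_update, updateRow_idem]

lemma det_update (σ : Fin n → ι) (k : Fin n) (j : ι) :
    (mat p (Function.update σ k j)).det = p j ⬝ᵥ cof p σ k := by
  have h := dot_cof p (Function.update σ k j) k k
  rw [cof_update] at h
  simpa using h.symm

lemma vx_spec {σ : Fin n → ι} (h : (mat p σ).det ≠ 0) (l : Fin n) : p (σ l) ⬝ᵥ vx p σ = 1 := by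
  simp only [vx, dotProduct_smul, dotProduct_sum, dot_cof, smul_eq_mul]
  simp [h]

lemma ker_zero {σ : Fin n → ι} (h : (mat p σ).det ≠ 0) {z : Fin n → ℝ}
    (hz : ∀ l, p (σ l) ⬝ᵥ z = 0) : z = 0 := by
  apply Matrix.eq_zero_of_mulVec_eq_zero h
  funext l
  exact hz l

lemma vx_unique {σ : Fin n → ι} (h : (mat p σ).det ≠ 0) {x : Fin n → ℝ}
    (hx : ∀ l, p (σ l) ⬝ᵥ x = 1) : x = vx p σ := by
  have : x - vx p σ = 0 := ker_zero p h (fun l => by
    rw [dotProduct_sub, hx, vx_spec p h, sub_self])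
  exact sub_eq_zero.mp this

lemma inj_of_det {σ : Fin n → ι} (h : (mat p σ).det ≠ 0) : Function.Injective σ := by
  intro a b hab
  by_contra hne
  apply h
  apply Matrix.det_zero_of_row_eq hne
  funext c
  simp [mat, hab]

/-- ray shooting -/
lemma shoot [Fintype ι] {x d : Fin n → ℝ} (hx : Feas p x) (hd : ∃ i, 0 < p i ⬝ᵥ d) :
    ∃ (t : ℝ) (j : ι), 0 < p j ⬝ᵥ d ∧ Feas p (x + t • d) ∧ p j ⬝ᵥ (x + t • d) = 1 := by
  classical
  obtain ⟨i0, hi0⟩ := hd
  have hne : (Finset.univ.filter fun i => 0 < p i ⬝ᵥ d).Nonempty := ⟨i0, by simp [hi0]⟩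
  obtain ⟨j, hj, hmin⟩ := Finset.exists_min_image _ (fun i => (1 - p i ⬝ᵥ x) / (p i ⬝ᵥ d)) hne
  have hjd : 0 < p j ⬝ᵥ d := by simpa using hj
  refine ⟨(1 - p j ⬝ᵥ x) / (p j ⬝ᵥ d), j, hjd, ?_, ?_⟩
  · intro i
    rw [dotProduct_add, dotProduct_smul, smul_eq_mul]
    have ht : 0 ≤ (1 - p j ⬝ᵥ x) / (p j ⬝ᵥ d) := div_nonneg (by linarith [hx j]) hjd.le
    by_cases hi : 0 < p i ⬝ᵥ d
    · have := hmin i (by simp [hi])
      rw [le_div_iff₀ hi] at this
      linarith
    · have : (1 - p j ⬝ᵥ x) / (p j ⬝ᵥ d) * (p i ⬝ᵥ d) ≤ 0 :=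
        mul_nonpos_of_nonneg_of_nonpos ht (not_lt.mp hi)
      linarith [hx i]
  · rw [dotProduct_add, dotProduct_smul, smul_eq_mul, div_mul_cancel₀ _ hjd.ne']
    ring

/-- existence of a good replacement on the side of a direction `d` parallel to the cofactor -/
lemma exists_side [Fintype ι] (hB : Bdd p) {σ : Fin n → ι} {k : Fin n} {j0 : ι}
    (h0 : Good p (Function.update σ k j0)) (e : ℝ) (he : e ≠ 0) :
    ∃ j, Good p (Function.update σ k j) ∧ 0 < e * (p j ⬝ᵥ cof p σ k) := by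
  have hd0 : p j0 ⬝ᵥ cof p σ k ≠ 0 := by rw [← det_update]; exact h0.1
  have hd : e • cof p σ k ≠ 0 := by
    intro h
    rcases smul_eq_zero.mp h with h | h
    · exact he h
    · apply hd0; rw [h]; simp
  obtain ⟨t, j, hj, hf, h1⟩ := shoot p h0.2 (hB _ hd)
  rw [dotProduct_smul, smul_eq_mul] at hj
  have hdet : (mat p (Function.update σ k j)).det ≠ 0 := by
    rw [det_update]
    intro h
    rw [h] at hj
    simp at hj
  refine ⟨j, ⟨hdet, ?_⟩, hj⟩
  have : vx p (Function.update σ k j0) + t • e • cof p σ k = vx p (Function.update σ k j) := by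
    apply vx_unique p hdet
    intro l
    by_cases hl : l = k
    · subst hl; simpa using h1
    · have h2 := vx_spec p h0.1 l
      have h3 := dot_cof p σ k l
      simp only [Function.update_of_ne hl] at h2 ⊢
      rw [if_neg hl] at h3
      rw [dotProduct_add, dotProduct_smul, dotProduct_smul, h2, h3]
      simp
  rw [← this]
  exact hf

lemma unique_side (hN : ND p) {σ : Fin n → ι} {k : Fin n} {j j' : ι}
    (h : Good p (Function.update σ k j)) (h' : Good p (Function.update σ k j'))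
    (hs : 0 < (p j ⬝ᵥ cof p σ k) * (p j' ⬝ᵥ cof p σ k)) : j = j' := by
  by_contra hne
  set d := cof p σ k with hd
  set x := vx p (Function.update σ k j) with hx
  set x' := vx p (Function.update σ k j') with hx'
  have hj : p j ⬝ᵥ d ≠ 0 := by rw [hd, ← det_update]; exact h.1
  have hj' : p j' ⬝ᵥ d ≠ 0 := by rw [hd, ← det_update]; exact h'.1
  have hxj : p j ⬝ᵥ x = 1 := by simpa using vx_spec p h.1 k
  have hxj' : p j' ⬝ᵥ x' = 1 := by simpa using vx_spec p h'.1 k
  set t := (p j ⬝ᵥ (x - x')) / (p j ⬝ᵥ d) with ht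
  have hz : x - x' - t • d = 0 := by
    apply ker_zero p h.1
    intro l
    by_cases hl : l = k
    · subst hl
      simp only [Function.update_self]
      rw [dotProduct_sub, dotProduct_smul, smul_eq_mul, ht, div_mul_cancel₀ _ hj, sub_self]
    · have h2 := vx_spec p h.1 l
      have h2' := vx_spec p h'.1 l
      have h3 := dot_cof p σ k l
      simp only [Function.update_of_ne hl] at h2 h2' ⊢
      rw [if_neg hl] at h3
      rw [dotProduct_sub, dotProduct_sub, dotProduct_smul, h2, h2', h3]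
      simp
  have hxx : x = x' + t • d := by
    have := sub_eq_zero.mp hz
    rw [← this]; abel
  have e1 : 0 ≤ t * (p j ⬝ᵥ d) := by
    have h4 := h'.2 j
    have h5 := hxj
    rw [hxx, dotProduct_add, dotProduct_smul, smul_eq_mul] at h5
    linarith
  have e2 : t * (p j' ⬝ᵥ d) ≤ 0 := by
    have h4 := h.2 j'
    rw [← hx, hxx, dotProduct_add, dotProduct_smul, smul_eq_mul] at h4
    linarith
  have ht0 : t = 0 := by
    by_contra h0
    have : 0 < t * t := mul_self_pos.mpr h0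
    nlinarith [mul_nonpos_of_nonneg_of_nonpos e1 e2, mul_pos this hs]
  have hxx' : x = x' := by rw [hxx, ht0]; simp
  refine hN _ h.1 j' x ?_ (vx_spec p h.1) (by rw [hxx']; exact hxj')
  intro l
  by_cases hl : l = k
  · subst hl; simpa using hne
  · simp only [Function.update_of_ne hl]
    intro hh
    have h3 := dot_cof p σ k l
    rw [if_neg hl, hh] at h3
    exact hj' h3

open Classical in
/-- the signed indicator of a feasible basis -/
noncomputable def sg (σ : Fin n → ι) : ℝ :=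
  if Good p σ then (if 0 < (mat p σ).det then 1 else -1) else 0

open Classical in
/-- the weight of a basis -/
noncomputable def wt (σ : Fin n → ι) : ℝ :=
  if Good p σ then |(mat p σ).det| else 0

lemma sg_mul_det (σ : Fin n → ι) : sg p σ * (mat p σ).det = wt p σ := by
  unfold sg wt
  split_ifs with h1 h2
  · rw [abs_of_pos h2, one_mul]
  · rw [abs_of_nonpos (not_lt.mp h2)]; ring
  · simp

lemma wt_nonneg (σ : Fin n → ι) : 0 ≤ wt p σ := by
  unfold wt
  split_ifs
  · exact abs_nonneg _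
  · exact le_rfl

lemma balance [Fintype ι] (hB : Bdd p) (hN : ND p) (σ : Fin n → ι) (k : Fin n) :
    ∑ j, sg p (Function.update σ k j) = 0 := by
  classical
  by_cases h0 : ∃ j0, Good p (Function.update σ k j0)
  · obtain ⟨j0, h0⟩ := h0
    obtain ⟨a, ha, ha'⟩ := exists_side p hB h0 1 one_ne_zero
    obtain ⟨b, hb, hb'⟩ := exists_side p hB h0 (-1) (by norm_num)
    rw [one_mul] at ha'
    have hb'' : p b ⬝ᵥ cof p σ k < 0 := by linarith
    have hab : a ≠ b := by
      intro h; rw [h] at ha'; linarith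
    rw [Finset.sum_eq_add a b hab]
    · unfold sg
      rw [if_pos ha, if_pos hb, det_update, det_update, if_pos ha', if_neg (not_lt.mpr hb''.le)]
      ring
    · intro c _ hc
      unfold sg
      rw [if_neg]
      intro hg
      have hc0 : p c ⬝ᵥ cof p σ k ≠ 0 := by rw [← det_update]; exact hg.1
      rcases lt_or_gt_of_ne hc0 with h | h
      · exact hc.2 (unique_side p hN hg hb (mul_pos_of_neg_of_neg h hb''))
      · exact hc.1 (unique_side p hN hg ha (mul_pos h ha'))
    · intro h; exact absurd (Finset.mem_univ a) h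
    · intro h; exact absurd (Finset.mem_univ b) h
  · push Not at h0
    apply Finset.sum_eq_zero
    intro j _
    unfold sg
    rw [if_neg (h0 j)]

lemma cancel [Fintype ι] (hB : Bdd p) (hN : ND p) (k : Fin n) (ψ : (Fin n → ι) → ℝ)
    (hψ : ∀ σ j, ψ (Function.update σ k j) = ψ σ) :
    ∑ σ, sg p σ * ψ σ = 0 := by
  classical
  rcases isEmpty_or_nonempty ι with hι | hι
  · apply Finset.sum_eq_zero
    intro σ _
    exact hι.elim (σ k)
  let e : (Fin n → ι) × ι ≃ (Fin n → ι) × ι :=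
    { toFun := fun x => (Function.update x.1 k x.2, x.1 k)
      invFun := fun x => (Function.update x.1 k x.2, x.1 k)
      left_inv := by rintro ⟨σ, j⟩; simp
      right_inv := by rintro ⟨σ, j⟩; simp }
  have h1 : ∑ x : (Fin n → ι) × ι, sg p (e x).1 * ψ (e x).1 =
      ∑ x : (Fin n → ι) × ι, sg p x.1 * ψ x.1 :=
    Equiv.sum_comp e (fun x => sg p x.1 * ψ x.1)
  have h2 : ∑ x : (Fin n → ι) × ι, sg p (e x).1 * ψ (e x).1 = 0 := by
    rw [Fintype.sum_prod_type]
    apply Finset.sum_eq_zero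
    intro σ _
    have : ∀ j, sg p (e (σ, j)).1 * ψ (e (σ, j)).1 = sg p (Function.update σ k j) * ψ σ := by
      intro j
      show sg p (Function.update σ k j) * ψ (Function.update σ k j) = _
      rw [hψ]
    simp only [this]
    rw [← Finset.sum_mul, balance p hB hN, zero_mul]
  rw [h2, Fintype.sum_prod_type] at h1
  simp only [Finset.sum_const, Finset.card_univ, nsmul_eq_mul] at h1
  rw [← Finset.mul_sum] at h1
  have hc : (Fintype.card ι : ℝ) ≠ 0 := by exact_mod_cast Fintype.card_ne_zero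
  exact (mul_eq_zero.mp h1.symm).resolve_left hc

lemma wt_dot (σ : Fin n → ι) (u : Fin n → ℝ) :
    wt p σ * (u ⬝ᵥ vx p σ) = ∑ k, sg p σ * (u ⬝ᵥ cof p σ k) := by
  by_cases h : Good p σ
  · rw [← sg_mul_det, vx, dotProduct_smul, dotProduct_sum, ← Finset.mul_sum, smul_eq_mul]
    have := h.1
    field_simp
  · simp [wt, sg, h]

lemma mean_zero [Fintype ι] (hB : Bdd p) (hN : ND p) (u : Fin n → ℝ) :
    ∑ σ, wt p σ * (u ⬝ᵥ vx p σ) = 0 := by
  simp only [wt_dot]
  rw [Finset.sum_comm]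
  apply Finset.sum_eq_zero
  intro k _
  apply cancel p hB hN k (fun σ => u ⬝ᵥ cof p σ k)
  intro σ j
  simp only [cof_update]

lemma diag_sum (T : Matrix (Fin n) (Fin n) ℝ) (σ : Fin n → ι) :
    ∑ k, (p (σ k) ᵥ* T) ⬝ᵥ cof p σ k = (mat p σ).det * T.trace := by
  have h : (mat p σ * T * adjugate (mat p σ)).trace = (mat p σ).det * T.trace := by
    rw [Matrix.trace_mul_comm, ← Matrix.mul_assoc, adjugate_mul]
    simp
  rw [← h, Matrix.trace]
  apply Finset.sum_congr rfl
  intro k _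
  rfl

lemma cross [Fintype ι] (hB : Bdd p) (hN : ND p) (T : Matrix (Fin n) (Fin n) ℝ) :
    ∑ σ, wt p σ * ∑ l, (p (σ l) ᵥ* T) ⬝ᵥ vx p σ = (∑ σ, wt p σ) * T.trace := by
  simp only [Finset.mul_sum, wt_dot]
  have h1 : ∀ l k : Fin n, ∑ σ : Fin n → ι, sg p σ * ((p (σ l) ᵥ* T) ⬝ᵥ cof p σ k) =
      if l = k then ∑ σ : Fin n → ι, sg p σ * ((p (σ k) ᵥ* T) ⬝ᵥ cof p σ k) else 0 := by
    intro l k
    split_ifs with h
    · rw [h]
    · apply cancel p hB hN k (fun σ => (p (σ l) ᵥ* T) ⬝ᵥ cof p σ k)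
      intro σ j
      simp only [cof_update, Function.update_of_ne h]
  rw [Finset.sum_comm]
  have h2 : ∀ l : Fin n, ∑ σ : Fin n → ι, ∑ k, sg p σ * ((p (σ l) ᵥ* T) ⬝ᵥ cof p σ k) =
      ∑ σ : Fin n → ι, sg p σ * ((p (σ l) ᵥ* T) ⬝ᵥ cof p σ l) := by
    intro l
    rw [Finset.sum_comm, Finset.sum_congr rfl (fun k _ => h1 l k), Finset.sum_ite_eq]
    simp
  simp only [h2]
  rw [Finset.sum_comm, Finset.sum_mul]
  apply Finset.sum_congr rfl
  intro σ _
  rw [← Finset.mul_sum, diag_sum, ← mul_assoc, sg_mul_det]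

lemma exists_indep [Fintype ι] (hB : Bdd p) (k : ℕ) (hk : k ≤ n) :
    ∃ (x : Fin n → ℝ) (τ : Fin k → ι), Feas p x ∧ LinearIndependent ℝ (fun l => p (τ l)) ∧
      ∀ l, p (τ l) ⬝ᵥ x = 1 := by
  induction k with
  | zero =>
    refine ⟨0, Fin.elim0, fun i => by simp, linearIndependent_empty_type, fun l => l.elim0⟩
  | succ k ih =>
    obtain ⟨x, τ, hx, hli, h1⟩ := ih (by omega)
    let f : (Fin n → ℝ) →ₗ[ℝ] (Fin k → ℝ) := Matrix.mulVecLin (Matrix.of fun l => p (τ l))
    have hker : LinearMap.ker f ≠ ⊥ := f.ker_ne_bot_of_finrank_lt (by simp; omega)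
    obtain ⟨d, hd, hd0⟩ := Submodule.exists_mem_ne_zero_of_ne_bot hker
    have hd' : ∀ l, p (τ l) ⬝ᵥ d = 0 := fun l => congrFun (LinearMap.mem_ker.mp hd) l
    obtain ⟨t, j, hj, hf, hj1⟩ := shoot p hx (hB d hd0)
    refine ⟨x + t • d, Fin.cons j τ, hf, ?_, ?_⟩
    · have : (fun l : Fin (k + 1) => p ((Fin.cons j τ : Fin (k + 1) → ι) l)) =
          Fin.cons (p j) (fun l => p (τ l)) := by
        funext l
        refine Fin.cases ?_ (fun l => ?_) l <;> simp
      rw [this, linearIndependent_finCons]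
      refine ⟨hli, fun hmem => ?_⟩
      have : ∀ z ∈ Submodule.span ℝ (Set.range fun l => p (τ l)), z ⬝ᵥ d = 0 := by
        intro z hz
        induction hz using Submodule.span_induction with
        | mem z hz => obtain ⟨l, rfl⟩ := hz; exact hd' l
        | zero => simp
        | add a b _ _ ha hb => rw [add_dotProduct, ha, hb, add_zero]
        | smul c a _ ha => rw [smul_dotProduct, ha, smul_zero]
      rw [this _ hmem] at hj
      exact lt_irrefl _ hj
    · intro l
      refine Fin.cases ?_ (fun l => ?_) l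
      · simpa using hj1
      · simp only [Fin.cons_succ]
        rw [dotProduct_add, dotProduct_smul, h1, hd']
        simp

lemma exists_good [Fintype ι] (hB : Bdd p) : ∃ σ : Fin n → ι, Good p σ := by
  obtain ⟨x, τ, hx, hli, h1⟩ := exists_indep p hB n le_rfl
  have hdet : (mat p τ).det ≠ 0 := by
    have : IsUnit (mat p τ) := Matrix.linearIndependent_rows_iff_isUnit.mp hli
    exact ((Matrix.isUnit_iff_isUnit_det _).mp this).ne_zero
  refine ⟨τ, hdet, ?_⟩
  rw [← vx_unique p hdet h1]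
  exact hx

lemma wt_sum_pos [Fintype ι] (hB : Bdd p) : 0 < ∑ σ : Fin n → ι, wt p σ := by
  obtain ⟨σ, hσ⟩ := exists_good p hB
  apply Finset.sum_pos' (fun σ _ => wt_nonneg p σ)
  refine ⟨σ, Finset.mem_univ _, ?_⟩
  unfold wt
  rw [if_pos hσ]
  exact abs_pos.mpr hσ.1

lemma abs_sum_ge [Fintype ι] {σ : Fin n → ι} (hσ : Function.Injective σ) (a : ι → ℝ) :
    2 * ∑ l, a (σ l) - ∑ i, a i ≤ ∑ i, |a i| := by
  classical
  have h1 : ∑ l, (|a (σ l)| + a (σ l)) ≤ ∑ i, (|a i| + a i) := by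
    rw [← Finset.sum_image (s := Finset.univ) (g := σ) (f := fun i => |a i| + a i)
      (fun x _ y _ h => hσ h)]
    apply Finset.sum_le_sum_of_subset_of_nonneg (Finset.subset_univ _)
    intro i _ _
    linarith [neg_abs_le (a i)]
  have h2 : ∑ l, a (σ l) ≤ ∑ l, |a (σ l)| := Finset.sum_le_sum fun l _ => le_abs_self _
  rw [Finset.sum_add_distrib, Finset.sum_add_distrib] at h1
  linarith

/-- The key inequality. -/
theorem key [Fintype ι] (hB : Bdd p) (hN : ND p) (T : Matrix (Fin n) (Fin n) ℝ) (c : ℝ)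
    (hc : ∀ x, Feas p x → ∑ i, |(p i ᵥ* T) ⬝ᵥ x| ≤ c) : 2 * T.trace ≤ c := by
  have hW := wt_sum_pos p hB
  have h1 : ∑ σ : Fin n → ι, wt p σ *
      (2 * ∑ l, (p (σ l) ᵥ* T) ⬝ᵥ vx p σ - (∑ i, p i ᵥ* T) ⬝ᵥ vx p σ) =
      (∑ σ, wt p σ) * (2 * T.trace) := by
    have a1 := cross p hB hN T
    have a2 := mean_zero p hB hN (∑ i, p i ᵥ* T)
    have : ∀ σ : Fin n → ι, wt p σ *
      (2 * ∑ l, (p (σ l) ᵥ* T) ⬝ᵥ vx p σ - (∑ i, p i ᵥ* T) ⬝ᵥ vx p σ) =
        2 * (wt p σ * ∑ l, (p (σ l) ᵥ* T) ⬝ᵥ vx p σ) -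
          wt p σ * ((∑ i, p i ᵥ* T) ⬝ᵥ vx p σ) := fun σ => by ring
    simp only [this]
    rw [Finset.sum_sub_distrib, ← Finset.mul_sum, a1, a2]
    ring
  have h2 : ∑ σ : Fin n → ι, wt p σ *
      (2 * ∑ l, (p (σ l) ᵥ* T) ⬝ᵥ vx p σ - (∑ i, p i ᵥ* T) ⬝ᵥ vx p σ) ≤
      (∑ σ, wt p σ) * c := by
    rw [Finset.sum_mul]
    apply Finset.sum_le_sum
    intro σ _
    by_cases h : Good p σ
    · apply mul_le_mul_of_nonneg_left _ (wt_nonneg p σ)
      refine le_trans ?_ (hc _ h.2)
      rw [sum_dotProduct]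
      exact abs_sum_ge (inj_of_det p h.1) (fun i => (p i ᵥ* T) ⬝ᵥ vx p σ)
    · simp [wt, h]
  rw [h1] at h2
  exact le_of_mul_le_mul_left h2 hW

end Pool.Agent.Work.MP_ccba48_gt
end

-- merged part: Pool.Agent.Work.MP_ccba48_gt.Main
section
/-!
Lower bound for the vertex index of the Euclidean ball.
-/

set_option autoImplicit false

namespace Pool.Agent.Work.MP_ccba48_gt

open Matrix Finset

variable {n : ℕ} {ι : Type*}

/-- inverse square root of a positive definite matrix, with the trace bound we need -/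
lemma exists_inv_sqrt (F : Matrix (Fin n) (Fin n) ℝ) (hF : F.PosDef) (m : ℝ) (hm : 0 < m) :
    ∃ T : Matrix (Fin n) (Fin n) ℝ, Tᵀ * F * T = 1 ∧
      (3 * n * m ^ 2 - F.trace) / (2 * m ^ 3) ≤ T.trace := by
  have hH : F.IsHermitian := hF.isHermitian
  set U : Matrix (Fin n) (Fin n) ℝ := (hH.eigenvectorUnitary : Matrix (Fin n) (Fin n) ℝ) with hU
  have hU1 : Uᵀ * U = 1 := by
    have := Unitary.coe_star_mul_self hH.eigenvectorUnitary
    simpa [hU, star_eq_conjTranspose] using this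
  have hU2 : U * Uᵀ = 1 := mul_eq_one_comm.mp hU1
  have hsp : F = U * diagonal hH.eigenvalues * Uᵀ := by
    have := hH.spectral_theorem
    rw [Unitary.conjStarAlgAut_apply] at this
    simpa [hU, star_eq_conjTranspose] using this
  have hpos : ∀ k, 0 < hH.eigenvalues k := hF.eigenvalues_pos
  set μ : Fin n → ℝ := fun k => Real.sqrt (hH.eigenvalues k) with hμ
  have hμpos : ∀ k, 0 < μ k := fun k => Real.sqrt_pos.mpr (hpos k)
  have hμsq : ∀ k, μ k ^ 2 = hH.eigenvalues k := fun k => Real.sq_sqrt (hpos k).le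
  refine ⟨U * diagonal (fun k => (μ k)⁻¹) * Uᵀ, ?_, ?_⟩
  · have hd : diagonal (fun k => (μ k)⁻¹) * diagonal hH.eigenvalues *
        diagonal (fun k => (μ k)⁻¹) = (1 : Matrix (Fin n) (Fin n) ℝ) := by
      rw [diagonal_mul_diagonal, diagonal_mul_diagonal, ← diagonal_one]
      congr 1
      funext k
      rw [← hμsq k]
      have := (hμpos k).ne'
      field_simp
    calc (U * diagonal (fun k => (μ k)⁻¹) * Uᵀ)ᵀ * F * (U * diagonal (fun k => (μ k)⁻¹) * Uᵀ)
        = U * diagonal (fun k => (μ k)⁻¹) * (Uᵀ * U) * diagonal hH.eigenvalues * (Uᵀ * U) *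
            diagonal (fun k => (μ k)⁻¹) * Uᵀ := by
          conv_lhs => rw [hsp]
          simp only [transpose_mul, transpose_transpose, diagonal_transpose, Matrix.mul_assoc]
      _ = U * (diagonal (fun k => (μ k)⁻¹) * diagonal hH.eigenvalues *
            diagonal (fun k => (μ k)⁻¹)) * Uᵀ := by
          rw [hU1]; simp only [Matrix.mul_one, Matrix.mul_assoc]
      _ = 1 := by rw [hd, Matrix.mul_one, hU2]
  · have h1 : (U * diagonal (fun k => (μ k)⁻¹) * Uᵀ).trace = ∑ k, (μ k)⁻¹ := by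
      rw [Matrix.trace_mul_comm, ← Matrix.mul_assoc, hU1, Matrix.one_mul, trace_diagonal]
    have h2 : F.trace = ∑ k, μ k ^ 2 := by
      conv_lhs => rw [hsp]
      rw [Matrix.trace_mul_comm, ← Matrix.mul_assoc, hU1, Matrix.one_mul, trace_diagonal]
      simp only [hμsq]
    rw [h1, h2]
    have h3 : (3 * n * m ^ 2 - ∑ k, μ k ^ 2) / (2 * m ^ 3) =
        ∑ k : Fin n, (3 * m ^ 2 - μ k ^ 2) / (2 * m ^ 3) := by
      rw [← Finset.sum_div, Finset.sum_sub_distrib]
      simp
      ring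
    rw [h3]
    apply Finset.sum_le_sum
    intro k _
    have hk := hμpos k
    rw [div_le_iff₀ (by positivity), inv_mul_eq_div, le_div_iff₀ hk]
    nlinarith [mul_nonneg (sq_nonneg (μ k - m)) (by positivity : 0 ≤ μ k + 2 * m)]

lemma bdd_of_ball (p : ι → Fin n → ℝ) (hp : ∀ x, Feas p x → x ⬝ᵥ x ≤ 1) : Bdd p := by
  intro d hd
  by_contra h
  push Not at h
  have hdd : 0 < d ⬝ᵥ d := by
    rcases (dotProduct_self_star_nonneg d).lt_or_eq with h1 | h1
    · simpa using h1
    · exact absurd (dotProduct_self_eq_zero.mp (by simpa using h1.symm)) hd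
  have hf : Feas p ((2 / Real.sqrt (d ⬝ᵥ d)) • d) := by
    intro i
    rw [dotProduct_smul, smul_eq_mul]
    have : (2 / Real.sqrt (d ⬝ᵥ d)) * (p i ⬝ᵥ d) ≤ 0 :=
      mul_nonpos_of_nonneg_of_nonpos (by positivity) (h i)
    linarith
  have := hp _ hf
  rw [dotProduct_smul, smul_dotProduct, smul_eq_mul, smul_eq_mul, ← mul_assoc, ← sq, div_pow,
    Real.sq_sqrt hdd.le, div_mul_cancel₀ _ hdd.ne'] at this
  norm_num at this

/-- The lower bound in the nondegenerate case. -/
theorem lower_nd [Fintype ι] (hn : 1 ≤ n) (p : ι → Fin n → ℝ) (hN : ND p)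
    (hp : ∀ x, Feas p x → x ⬝ᵥ x ≤ 1) :
    2 * n * Real.sqrt n ≤ ∑ i, Real.sqrt (p i ⬝ᵥ p i) := by
  classical
  have hB := bdd_of_ball p hp
  set r : ι → ℝ := fun i => Real.sqrt (p i ⬝ᵥ p i) with hr
  have hpp : ∀ i, 0 ≤ p i ⬝ᵥ p i := fun i => by simpa using dotProduct_self_star_nonneg (p i)
  have hr0 : ∀ i, 0 ≤ r i := fun i => Real.sqrt_nonneg _
  have hrz : ∀ i, r i = 0 → p i = 0 := fun i h =>
    dotProduct_self_eq_zero.mp (le_antisymm (Real.sqrt_eq_zero'.mp h) (hpp i))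
  set S := ∑ i, r i with hS
  set F : Matrix (Fin n) (Fin n) ℝ := ∑ i, (r i)⁻¹ • vecMulVec (p i) (p i) with hFdef
  have hq : ∀ z : Fin n → ℝ, z ⬝ᵥ F *ᵥ z = ∑ i, (r i)⁻¹ * (p i ⬝ᵥ z) ^ 2 := by
    intro z
    rw [hFdef, Matrix.sum_mulVec, dotProduct_sum]
    apply Finset.sum_congr rfl
    intro i _
    rw [Matrix.smul_mulVec, dotProduct_smul, vecMulVec_mulVec, dotProduct_smul,
      dotProduct_comm z]
    simp [sq]
  have hF : F.PosDef := by
    rw [Matrix.posDef_iff_dotProduct_mulVec]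
    constructor
    · rw [hFdef]
      ext a b
      simp only [conjTranspose_apply, Matrix.sum_apply, Matrix.smul_apply, vecMulVec_apply,
        star_trivial, smul_eq_mul]
      apply Finset.sum_congr rfl
      intro i _
      ring
    · intro z hz
      simp only [star_trivial]
      rw [hq]
      obtain ⟨i, hi⟩ := hB z hz
      apply Finset.sum_pos' (fun i _ => mul_nonneg (inv_nonneg.mpr (hr0 i)) (sq_nonneg _))
      refine ⟨i, Finset.mem_univ _, mul_pos (inv_pos.mpr ?_) (pow_pos hi 2)⟩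
      refine lt_of_le_of_ne (hr0 i) fun h => ?_
      rw [hrz i h.symm] at hi
      simp at hi
  have htr : F.trace = S := by
    rw [hFdef, Matrix.trace_sum]
    apply Finset.sum_congr rfl
    intro i _
    rw [Matrix.trace_smul, trace_vecMulVec, smul_eq_mul, ← Real.mul_self_sqrt (hpp i)]
    show (r i)⁻¹ * (r i * r i) = r i
    by_cases h : r i = 0
    · simp [h]
    · field_simp
  have hnpos : (0 : ℝ) < n := by exact_mod_cast hn
  have hSpos : 0 < S := by
    rw [← htr]
    have : Nonempty (Fin n) := ⟨⟨0, hn⟩⟩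
    exact hF.trace_pos
  set m := Real.sqrt (S / n) with hm
  have hmpos : 0 < m := Real.sqrt_pos.mpr (div_pos hSpos hnpos)
  have hmsq : m ^ 2 = S / n := Real.sq_sqrt (div_pos hSpos hnpos).le
  obtain ⟨T, hT1, hT2⟩ := exists_inv_sqrt F hF m hmpos
  have hk := key p hB hN T (Real.sqrt S) (by
    intro x hx
    apply Real.le_sqrt_of_sq_le
    have h1 : ∑ i, (r i)⁻¹ * (p i ⬝ᵥ (T *ᵥ x)) ^ 2 ≤ 1 := by
      rw [← hq, Matrix.mulVec_mulVec, ← Matrix.vecMul_transpose, ← Matrix.dotProduct_mulVec,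
        Matrix.mulVec_mulVec, ← Matrix.mul_assoc, hT1, Matrix.one_mulVec]
      exact hp x hx
    have h2 := Finset.sum_mul_sq_le_sq_mul_sq Finset.univ (fun i => Real.sqrt (r i))
      (fun i => Real.sqrt (r i)⁻¹ * |p i ⬝ᵥ (T *ᵥ x)|)
    have h3 : ∀ i, Real.sqrt (r i) * (Real.sqrt (r i)⁻¹ * |p i ⬝ᵥ (T *ᵥ x)|) =
        |(p i ᵥ* T) ⬝ᵥ x| := by
      intro i
      rw [← Matrix.dotProduct_mulVec]
      by_cases h : r i = 0
      · simp [hrz i h]
      · rw [← mul_assoc, ← Real.sqrt_mul (hr0 i), mul_inv_cancel₀ h]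
        simp
    have h4 : ∀ i, Real.sqrt (r i) ^ 2 = r i := fun i => Real.sq_sqrt (hr0 i)
    have h5 : ∀ i, (Real.sqrt (r i)⁻¹ * |p i ⬝ᵥ (T *ᵥ x)|) ^ 2 =
        (r i)⁻¹ * (p i ⬝ᵥ (T *ᵥ x)) ^ 2 := by
      intro i
      rw [mul_pow, sq_abs, Real.sq_sqrt (inv_nonneg.mpr (hr0 i))]
    simp only [h3, h4, h5] at h2
    calc _ ≤ _ := h2
      _ ≤ S * 1 := mul_le_mul_of_nonneg_left h1 hSpos.le
      _ = S := mul_one S)
  rw [htr] at hT2
  have hSm : S = n * m ^ 2 := by rw [hmsq]; field_simp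
  have h6 : (3 * n * m ^ 2 - S) / (2 * m ^ 3) = n / m := by
    rw [hSm]; field_simp; ring
  have h7 : Real.sqrt S = Real.sqrt n * m := by
    rw [hSm, Real.sqrt_mul hnpos.le, Real.sqrt_sq hmpos.le]
  rw [h6] at hT2
  have h8 : 2 * (n / m) ≤ Real.sqrt n * m := by linarith
  have hs : Real.sqrt n * Real.sqrt n = n := Real.mul_self_sqrt hnpos.le
  have hspos : 0 < Real.sqrt (n : ℝ) := Real.sqrt_pos.mpr hnpos
  have h9 : 2 * Real.sqrt n ≤ m ^ 2 := by
    rw [← mul_div_assoc, div_le_iff₀ hmpos] at h8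
    have : Real.sqrt n * (2 * Real.sqrt n) ≤ Real.sqrt n * m ^ 2 := by nlinarith
    exact le_of_mul_le_mul_left this hspos
  rw [hSm]
  nlinarith

/-- generic right-hand sides -/
lemma exists_generic [Fintype ι] (p : ι → Fin n → ℝ) (a : ℝ) (ha0 : 0 < a) (ha : a < 1) :
    ∃ b : ι → ℝ, (∀ i, a < b i ∧ b i < 1) ∧ ND (fun i => (b i)⁻¹ • p i) := by
  classical
  let L : (Fin n → ι) × ι → (ι → ℝ) →ₗ[ℝ] ℝ := fun s =>
    (∑ k, ((mat p s.1).det⁻¹ * (p s.2 ⬝ᵥ cof p s.1 k)) • LinearMap.proj (s.1 k)) -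
      LinearMap.proj s.2
  have hL : ∀ s b, L s b =
      ∑ k, ((mat p s.1).det⁻¹ * (p s.2 ⬝ᵥ cof p s.1 k)) * b (s.1 k) - b s.2 := by
    intro s b
    simp [L, LinearMap.sum_apply]
  have hdense : Dense (⋂ s : {s : (Fin n → ι) × ι // ∀ k, s.1 k ≠ s.2},
      ((LinearMap.ker (L s.1) : Set (ι → ℝ)))ᶜ) := by
    apply dense_iInter_of_isOpen
    · intro s
      exact (Submodule.closed_of_finiteDimensional _).isOpen_compl
    · intro s
      rw [← interior_eq_empty_iff_dense_compl]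
      by_contra hne
      have htop := Submodule.eq_top_of_nonempty_interior' _ (Set.nonempty_iff_ne_empty.mpr hne)
      have hmem : (Pi.single s.1.2 1 : ι → ℝ) ∈ LinearMap.ker (L s.1) := by
        rw [htop]; trivial
      rw [LinearMap.mem_ker, hL] at hmem
      have : ∀ k, (Pi.single s.1.2 1 : ι → ℝ) (s.1.1 k) = 0 := fun k =>
        Pi.single_eq_of_ne (s.2 k) _
      simp [this] at hmem
  have hopen : IsOpen (Set.pi Set.univ fun _ : ι => Set.Ioo a 1) :=
    isOpen_set_pi Set.finite_univ fun _ _ => isOpen_Ioo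
  have hne : (Set.pi Set.univ fun _ : ι => Set.Ioo a 1).Nonempty :=
    ⟨fun _ => (a + 1) / 2, fun _ _ => ⟨by linarith, by linarith⟩⟩
  obtain ⟨b, hb1, hb2⟩ := hdense.inter_open_nonempty _ hopen hne
  have hb : ∀ i, a < b i ∧ b i < 1 := fun i => hb1 i (Set.mem_univ i)
  have hbpos : ∀ i, 0 < b i := fun i => ha0.trans (hb i).1
  refine ⟨b, hb, ?_⟩
  intro σ hdet j x hj hx hjx
  have hdet' : (mat p σ).det ≠ 0 := by
    intro h
    apply hdet
    have : mat (fun i => (b i)⁻¹ • p i) σ = diagonal (fun k => (b (σ k))⁻¹) * mat p σ := by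
      ext k c
      simp [mat]
    rw [this, det_mul, h, mul_zero]
  have hx' : ∀ k, p (σ k) ⬝ᵥ x = b (σ k) := by
    intro k
    have := hx k
    rw [smul_dotProduct, smul_eq_mul, inv_mul_eq_div, div_eq_one_iff_eq (hbpos _).ne'] at this
    exact this
  have hjx' : p j ⬝ᵥ x = b j := by
    rw [smul_dotProduct, smul_eq_mul, inv_mul_eq_div, div_eq_one_iff_eq (hbpos _).ne'] at hjx
    exact hjx
  have hxe : x = ∑ k, ((mat p σ).det⁻¹ * b (σ k)) • cof p σ k := by
    apply sub_eq_zero.mp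
    apply ker_zero p hdet'
    intro l
    rw [dotProduct_sub, dotProduct_sum, hx']
    simp only [dotProduct_smul, dot_cof, smul_eq_mul, mul_ite, mul_zero, Finset.sum_ite_eq,
      Finset.mem_univ, if_true]
    field_simp
    ring
  have hmem := Set.mem_iInter.mp hb2 ⟨(σ, j), hj⟩
  apply hmem
  show L (σ, j) b = 0
  rw [hL, ← hjx']
  conv_lhs => rw [hxe]
  rw [dotProduct_sum, ← Finset.sum_sub_distrib]
  apply Finset.sum_eq_zero
  intro k _
  rw [dotProduct_smul, smul_eq_mul]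
  ring

/-- The lower bound. -/
theorem lower [Fintype ι] (hn : 1 ≤ n) (p : ι → Fin n → ℝ)
    (hp : ∀ x, Feas p x → x ⬝ᵥ x ≤ 1) :
    2 * n * Real.sqrt n ≤ ∑ i, Real.sqrt (p i ⬝ᵥ p i) := by
  set S := ∑ i, Real.sqrt (p i ⬝ᵥ p i) with hS
  have hS0 : 0 ≤ S := Finset.sum_nonneg fun i _ => Real.sqrt_nonneg _
  have h1 : ∀ a : ℝ, 0 < a → a < 1 → a * (2 * n * Real.sqrt n) ≤ S := by
    intro a ha0 ha
    obtain ⟨b, hb, hN⟩ := exists_generic p a ha0 ha
    have hbpos : ∀ i, 0 < b i := fun i => ha0.trans (hb i).1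
    have h2 := lower_nd hn _ hN (by
      intro x hx
      apply hp
      intro i
      have := hx i
      rw [smul_dotProduct, smul_eq_mul, inv_mul_eq_div, div_le_one (hbpos i)] at this
      linarith [(hb i).2])
    calc a * (2 * n * Real.sqrt n)
        ≤ a * ∑ i, Real.sqrt (((b i)⁻¹ • p i) ⬝ᵥ ((b i)⁻¹ • p i)) :=
          mul_le_mul_of_nonneg_left h2 ha0.le
      _ ≤ S := by
          rw [Finset.mul_sum]
          apply Finset.sum_le_sum
          intro i _
          have hbi := hbpos i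
          rw [smul_dotProduct, dotProduct_smul, smul_eq_mul, smul_eq_mul, ← mul_assoc,
            Real.sqrt_mul (by positivity), Real.sqrt_mul_self (by positivity), ← mul_assoc]
          apply mul_le_of_le_one_left (Real.sqrt_nonneg _)
          rw [← div_eq_mul_inv, div_le_one hbi]
          exact (hb i).1.le
  by_contra hlt
  push Not at hlt
  set C := 2 * n * Real.sqrt n with hC
  have hCpos : 0 < C := lt_of_le_of_lt hS0 hlt
  have h3 := h1 ((S / C + 1) / 2) (by positivity) (by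
    have : S / C < 1 := (div_lt_one hCpos).mpr hlt
    linarith)
  have h4 : (S / C + 1) / 2 * C = (S + C) / 2 := by field_simp
  rw [h4] at h3
  linarith

lemma rpow_three_halves (n : ℕ) : (n : ℝ) ^ ((3 : ℝ) / 2) = n * Real.sqrt n := by
  have h : ((3 : ℝ) / 2) = 1 + 1 / 2 := by norm_num
  rw [h, Real.rpow_add' (Nat.cast_nonneg n) (by norm_num), Real.rpow_one, Real.sqrt_eq_rpow]

/-- The lower bound for point sets whose hull contains the ball. -/
theorem lower_hull (hn : 1 ≤ n) (P : Finset (EuclideanSpace ℝ (Fin n)))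
    (hP : Metric.closedBall (0 : EuclideanSpace ℝ (Fin n)) 1 ⊆
      convexHull ℝ (↑P : Set (EuclideanSpace ℝ (Fin n)))) :
    2 * n * Real.sqrt n ≤ ∑ p ∈ P, ‖p‖ := by
  have hnorm : ∀ z : EuclideanSpace ℝ (Fin n), Real.sqrt (z.ofLp ⬝ᵥ z.ofLp) = ‖z‖ := by
    intro z
    rw [EuclideanSpace.norm_eq]
    congr 1
    simp [dotProduct, sq]
  have h := lower (ι := P) hn (fun i => (i : EuclideanSpace ℝ (Fin n)).ofLp) (by
    intro x hx
    have hconv : Convex ℝ {z : EuclideanSpace ℝ (Fin n) | z.ofLp ⬝ᵥ x ≤ 1} := by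
      intro u hu v hv a b ha hb hab
      simp only [Set.mem_ofPred_eq, WithLp.ofLp_add, WithLp.ofLp_smul, add_dotProduct,
        smul_dotProduct, smul_eq_mul] at hu hv ⊢
      nlinarith [mul_le_mul_of_nonneg_left hu ha, mul_le_mul_of_nonneg_left hv hb]
    have hsub : convexHull ℝ (↑P : Set (EuclideanSpace ℝ (Fin n))) ⊆
        {z : EuclideanSpace ℝ (Fin n) | z.ofLp ⬝ᵥ x ≤ 1} :=
      convexHull_min (fun z hz => hx ⟨z, hz⟩) hconv
    by_contra hlt
    push Not at hlt
    have hpos : 0 < x ⬝ᵥ x := by linarith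
    set ρ := Real.sqrt (x ⬝ᵥ x) with hρ
    have hρpos : 0 < ρ := Real.sqrt_pos.mpr hpos
    have hρsq : ρ * ρ = x ⬝ᵥ x := Real.mul_self_sqrt hpos.le
    have hmem : (ρ⁻¹ • WithLp.toLp 2 x : EuclideanSpace ℝ (Fin n)) ∈
        Metric.closedBall (0 : EuclideanSpace ℝ (Fin n)) 1 := by
      rw [mem_closedBall_zero_iff, norm_smul, ← hnorm, Real.norm_eq_abs, abs_of_pos (by positivity)]
      show ρ⁻¹ * ρ ≤ 1
      rw [inv_mul_cancel₀ hρpos.ne']
    have h2 := hsub (hP hmem)
    simp only [Set.mem_ofPred_eq, WithLp.ofLp_smul, smul_dotProduct, smul_eq_mul] at h2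
    rw [← hρsq, ← mul_assoc, inv_mul_cancel₀ hρpos.ne', one_mul] at h2
    nlinarith)
  simp only [hnorm] at h
  rwa [Finset.sum_coe_sort P (fun p => ‖p‖)] at h

/-- The scaled cross-polytope. -/
theorem cross_polytope (hn : 1 ≤ n) : ∃ P : Finset (EuclideanSpace ℝ (Fin n)),
    Metric.closedBall (0 : EuclideanSpace ℝ (Fin n)) 1 ⊆
      convexHull ℝ (↑P : Set (EuclideanSpace ℝ (Fin n))) ∧
    ∑ p ∈ P, ‖p‖ ≤ 2 * n * Real.sqrt n := by
  classical
  have hnpos : (0 : ℝ) < n := by exact_mod_cast hn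
  have hspos : 0 < Real.sqrt (n : ℝ) := Real.sqrt_pos.mpr hnpos
  let v : Fin n × Bool → EuclideanSpace ℝ (Fin n) := fun s =>
    EuclideanSpace.single s.1 (if s.2 then Real.sqrt n else -Real.sqrt n)
  refine ⟨Finset.univ.image v, ?_, ?_⟩
  · intro x hx
    rw [mem_closedBall_zero_iff] at hx
    have hl1 : ∑ i, |x i| ≤ Real.sqrt n := by
      apply Real.le_sqrt_of_sq_le
      have h1 := Finset.sum_mul_sq_le_sq_mul_sq Finset.univ (fun _ : Fin n => (1 : ℝ))
        (fun i => |x i|)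
      have h2 : ∑ i, |x i| ^ 2 ≤ 1 := by
        have := EuclideanSpace.real_norm_sq_eq x
        simp only [sq_abs]
        rw [← this]
        nlinarith [norm_nonneg x]
      simp only [one_mul, one_pow, Finset.sum_const, Finset.card_univ, Fintype.card_fin,
        nsmul_eq_mul, mul_one] at h1
      nlinarith
    set δ := (1 - (∑ i, |x i|) / Real.sqrt n) / (2 * n) with hδ
    have hδ0 : 0 ≤ δ := by
      apply div_nonneg _ (by positivity)
      have := (div_le_one hspos).mpr hl1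
      linarith
    let w : Fin n × Bool → ℝ := fun s =>
      (if s.2 then (|x s.1| + x s.1) else (|x s.1| - x s.1)) / (2 * Real.sqrt n) + δ
    have hw0 : ∀ s, 0 ≤ w s := by
      intro s
      apply add_nonneg _ hδ0
      apply div_nonneg _ (by positivity)
      split_ifs
      · linarith [neg_abs_le (x s.1)]
      · linarith [le_abs_self (x s.1)]
    have hw1 : ∑ s, w s = 1 := by
      rw [Fintype.sum_prod_type]
      have : ∀ i : Fin n, ∑ b : Bool, w (i, b) = |x i| / Real.sqrt n + 2 * δ := by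
        intro i
        simp [w]
        field_simp
        ring
      simp only [this]
      rw [Finset.sum_add_distrib, ← Finset.sum_div]
      simp only [Finset.sum_const, Finset.card_univ, Fintype.card_fin, nsmul_eq_mul]
      rw [hδ]
      field_simp
      ring
    have hxe : x = ∑ s, w s • v s := by
      ext a
      rw [Fintype.sum_prod_type]
      have : ∀ i : Fin n, ∑ b : Bool, w (i, b) • v (i, b) = EuclideanSpace.single i (x i) := by
        intro i
        ext c
        simp [w, v]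
        split_ifs
        · field_simp
          ring
        · simp
      simp only [this]
      simp
    rw [hxe]
    apply (convex_convexHull ℝ _).sum_mem (fun s _ => hw0 s) hw1
    intro s _
    apply subset_convexHull
    simp
  · calc ∑ p ∈ Finset.univ.image v, ‖p‖ ≤ ∑ s, ‖v s‖ :=
          Finset.sum_image_le_of_nonneg (fun p _ => norm_nonneg p)
      _ = 2 * n * Real.sqrt n := by
          have : ∀ s, ‖v s‖ = Real.sqrt n := by
            intro s
            simp only [v, PiLp.norm_single]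
            split_ifs <;> simp [abs_of_pos hspos]
          simp only [this, Finset.sum_const, Finset.card_univ, Fintype.card_prod,
            Fintype.card_fin, Fintype.card_bool, nsmul_eq_mul]
          push_cast
          ring

end Pool.Agent.Work.MP_ccba48_gt
end
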